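import Pool.Agent.Helper57.ZF.Goals

/-!
Project ZF (MP_ef0af8_co), packet CROWD: the far and crowded points.
-/

namespace Pool.Agent.Helper2.ZF

open Pool.Agent.Helper57.ZF

open scoped Classical in
theorem CROWD (hLC : G_LC) (hPN : G_PN) (hMS : G_MSEP) : G_CROWD := by
  intro M _ hD
  obtain ⟨N, hN⟩ := hLC M hD 24
  obtain ⟨C, hC⟩ := hPN M hD
  refine ⟨N * C, ?_⟩
  intro P t rad L w hl
  set Q : Finset M := P.filter (fun p => 32 * rad (w p) < dist p (w p) ∧ Crowded L w p) with hQ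
  have hcnt : cnt P (fun p => 32 * rad (w p) < dist p (w p) ∧ Crowded L w p) = Q.card := by
    rw [cnt_eq]
  rw [hcnt]
  set sc : M → ℤ := fun p => Int.log 2 (dist p (w p)) with hsc
  set I : Finset ℤ := Q.image sc with hI
  set T : ℤ → Finset M := fun m => (Q.filter (fun p => sc p = m)).image w with hT
  have hpos : ∀ m : ℤ, (0 : ℝ) < (2 : ℝ) ^ m := fun m => by positivity
  choose S hST hSsep hScov using fun m : ℤ => hMS M (T m) ((2 : ℝ) ^ m) (hpos m)
  -- facts on the points of `Q`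
  have hfact : ∀ p ∈ Q, p ∈ P ∧ w p ∈ L ∧ (2 : ℝ) ^ (sc p) ≤ dist p (w p) ∧
      dist p (w p) < 2 * (2 : ℝ) ^ (sc p) ∧ (2 : ℝ) ^ (sc p) / 8 ≤ rad p := by
    intro p hp
    rw [hQ, Finset.mem_filter] at hp
    obtain ⟨hpP, hfar, hcr⟩ := hp
    have hwL := hl.wmem p hpP
    have hr := hl.radpos (w p) (hl.sub hwL)
    have hρ : 0 < dist p (w p) := by linarith
    have h1 : (2 : ℝ) ^ (sc p) ≤ dist p (w p) := by
      have := Int.zpow_log_le_self (R := ℝ) (b := 2) (by norm_num) hρ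
      exact_mod_cast this
    have h2 : dist p (w p) < 2 * (2 : ℝ) ^ (sc p) := by
      have := Int.lt_zpow_succ_log_self (R := ℝ) (b := 2) (by norm_num) (dist p (w p))
      rw [zpow_add₀ (by norm_num), zpow_one, mul_comm] at this
      exact_mod_cast this
    refine ⟨hpP, hwL, h1, h2, ?_⟩
    obtain ⟨q, hqL, _, hq⟩ := hl.dom p hpP
    have := hl.wmin p hpP q hqL
    linarith
  have hTL : ∀ m, T m ⊆ L := by
    intro m x hx
    rw [hT, Finset.mem_image] at hx
    obtain ⟨p, hp, rfl⟩ := hx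
    exact (hfact p (Finset.mem_filter.1 hp).1).2.1
  -- the sum of the cardinals of the nets
  have hsum : ∑ m ∈ I, (S m).card ≤ C * L.card := by
    refine hC L I S fun m _ => ⟨(hST m).trans (hTL m), hSsep m, fun x hx => ?_⟩
    have hx' := hST m hx
    rw [hT, Finset.mem_image] at hx'
    obtain ⟨p, hp, rfl⟩ := hx'
    obtain ⟨hpQ, hpm⟩ := Finset.mem_filter.1 hp
    obtain ⟨_, _, h1, h2, _⟩ := hfact p hpQ
    rw [hpm] at h1 h2
    rw [hQ, Finset.mem_filter] at hpQ
    obtain ⟨q, hqL, hq1, hq2⟩ := hpQ.2.2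
    refine ⟨q, hqL, ?_, ?_⟩
    · rw [dist_comm (w p) q]
      linarith
    · rw [dist_comm (w p) q]
      linarith
  -- each scale
  have hm : ∀ m ∈ I, (Q.filter (fun p => sc p = m)).card ≤ (S m).card * (N * t) := by
    intro m _
    have hsub : Q.filter (fun p => sc p = m) ⊆ (S m).biUnion (fun ν =>
        P.filter (fun p => dist p ν ≤ 3 * (2 : ℝ) ^ m ∧ (2 : ℝ) ^ m / 8 ≤ rad p)) := by
      intro p hp
      obtain ⟨hpQ, hpm⟩ := Finset.mem_filter.1 hp
      obtain ⟨hpP, _, h1, h2, h3⟩ := hfact p hpQ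
      rw [hpm] at h1 h2 h3
      obtain ⟨ν, hν, hd⟩ := hScov m (w p) (Finset.mem_image.2 ⟨p, hp, rfl⟩)
      refine Finset.mem_biUnion.2 ⟨ν, hν, Finset.mem_filter.2 ⟨hpP, ?_, h3⟩⟩
      have := dist_triangle p (w p) ν
      linarith
    refine (Finset.card_le_card hsub).trans (Finset.card_biUnion_le_card_mul _ _ _ fun ν _ => ?_)
    have h := hN P t rad hl.small ν (3 * (2 : ℝ) ^ m) ((2 : ℝ) ^ m / 8)
      (by have := hpos m; positivity) (by linarith)
    rwa [cnt_eq] at h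
  calc Q.card = ∑ m ∈ I, (Q.filter (fun p => sc p = m)).card :=
        Finset.card_eq_sum_card_image sc Q
    _ ≤ ∑ m ∈ I, (S m).card * (N * t) := Finset.sum_le_sum hm
    _ = (∑ m ∈ I, (S m).card) * (N * t) := (Finset.sum_mul _ _ _).symm
    _ ≤ (C * L.card) * (N * t) := Nat.mul_le_mul_right _ hsum
    _ = N * C * t * L.card := by ring

end Pool.Agent.Helper2.ZF
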